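import Pool.Agent.Helper35.SHQ.Sheet

/-! Project SHQ, row LIM: the growth rate exists and bounds every term (Fekete). -/

set_option autoImplicit false

namespace SHQ

open Filter Topology

theorem LIM_fin (n : ℕ) : {s : W | s.length = 2 * n ∧ SQ s}.Finite :=
  (List.finite_length_eq (Fin 3) (2 * n)).subset (fun _ hs => hs.1)

theorem LIM_mul (hD : ST_DEF) (hP : ST_PEN) (m n : ℕ) :
    (S3 m).ncard * (S3 n).ncard ≤ (S3 (m + n)).ncard := by
  rw [hD m, hD n, hD (m + n), ← Set.ncard_prod]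
  apply Set.ncard_le_ncard_of_injOn (fun q : W × W => q.1 ++ q.2) _ _ (LIM_fin (m + n))
  · rintro ⟨s, t⟩ ⟨⟨h1, h2⟩, ⟨h3, h4⟩⟩
    refine ⟨?_, hP.2.2.2.2 s t h2 h4⟩
    show (s ++ t).length = 2 * (m + n)
    rw [List.length_append]
    simp only at h1 h3
    omega
  · rintro ⟨s, t⟩ ⟨⟨h1, _⟩, _⟩ ⟨s', t'⟩ ⟨⟨h1', _⟩, _⟩ he
    have he' : s ++ t = s' ++ t' := he
    simp only at h1 h1'
    obtain ⟨k1, k2⟩ := List.append_inj he' (by omega)
    rw [k1, k2]

theorem LIM_pos (hD : ST_DEF) (hP : ST_PEN) (n : ℕ) : 1 ≤ (S3 n).ncard := by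
  rw [hD n, Nat.one_le_iff_ne_zero, ← Nat.pos_iff_ne_zero, Set.ncard_pos (LIM_fin n)]
  refine ⟨List.replicate n 0 ++ List.replicate n 0, ?_, ?_⟩
  · rw [List.length_append, List.length_replicate]
    omega
  · exact hP.2.2.1 _ _ (hP.2.1 _)

theorem LIM_le (n : ℕ) : (S3 n).ncard ≤ 9 ^ n := by
  have h1 : (S3 n).ncard ≤ (Set.univ : Set (Fin (2 * n) → Fin 3)).ncard :=
    Set.ncard_le_ncard (Set.subset_univ _) Set.finite_univ
  rw [Set.ncard_univ, Nat.card_eq_fintype_card, Fintype.card_fun, Fintype.card_fin,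
    Fintype.card_fin, pow_mul] at h1
  exact h1

theorem st_LIM (hD : ST_DEF) (hP : ST_PEN) : ST_LIM := by
  have hpos : ∀ n, (1 : ℝ) ≤ ((S3 n).ncard : ℝ) := fun n => by
    exact_mod_cast LIM_pos hD hP n
  have hpos' : ∀ n, (0 : ℝ) < ((S3 n).ncard : ℝ) := fun n => lt_of_lt_of_le one_pos (hpos n)
  let u : ℕ → ℝ := fun n => -Real.log ((S3 n).ncard : ℝ)
  have hsub : Subadditive u := by
    intro m n
    show -Real.log ((S3 (m + n)).ncard : ℝ) ≤
      -Real.log ((S3 m).ncard : ℝ) + -Real.log ((S3 n).ncard : ℝ)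
    have h1 : Real.log (((S3 m).ncard : ℝ) * ((S3 n).ncard : ℝ)) ≤
        Real.log ((S3 (m + n)).ncard : ℝ) := by
      apply Real.log_le_log (mul_pos (hpos' m) (hpos' n))
      exact_mod_cast LIM_mul hD hP m n
    rw [Real.log_mul (hpos' m).ne' (hpos' n).ne'] at h1
    linarith
  have hbd : BddBelow (Set.range fun n => u n / n) := by
    refine ⟨-Real.log 9, ?_⟩
    rintro _ ⟨n, rfl⟩
    show -Real.log 9 ≤ -Real.log ((S3 n).ncard : ℝ) / n
    have h9 : (0 : ℝ) ≤ Real.log 9 := Real.log_nonneg (by norm_num)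
    rcases Nat.eq_zero_or_pos n with hn | hn
    · subst hn
      simp only [Nat.cast_zero, div_zero]
      linarith
    · have hn' : (0 : ℝ) < n := by exact_mod_cast hn
      rw [le_div_iff₀ hn']
      have h1 : Real.log ((S3 n).ncard : ℝ) ≤ Real.log ((9 : ℝ) ^ n) := by
        apply Real.log_le_log (hpos' n)
        exact_mod_cast LIM_le n
      rw [Real.log_pow] at h1
      linarith
  have hlim := hsub.tendsto_lim hbd
  refine ⟨Real.exp (-hsub.lim), ?_, ?_, ?_⟩
  · apply Real.one_le_exp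
    have h1 := hsub.lim_le_div hbd (n := 1) one_ne_zero
    have h2 : u 1 / ((1 : ℕ) : ℝ) ≤ 0 := by
      rw [Nat.cast_one, div_one]
      show -Real.log ((S3 1).ncard : ℝ) ≤ 0
      have := Real.log_nonneg (hpos 1)
      linarith
    linarith
  · have h1 : (fun n : ℕ => ((S3 n).ncard : ℝ) ^ (1 / (n : ℝ))) =
        fun n : ℕ => Real.exp (-(u n / n)) := by
      funext n
      rw [Real.rpow_def_of_pos (hpos' n)]
      congr 1
      show Real.log ((S3 n).ncard : ℝ) * (1 / (n : ℝ)) = -(-Real.log ((S3 n).ncard : ℝ) / n)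
      ring
    rw [h1]
    exact (Real.continuous_exp.tendsto _).comp hlim.neg
  · intro n
    rcases Nat.eq_zero_or_pos n with hn | hn
    · subst hn
      rw [pow_zero]
      have := LIM_le 0
      rw [pow_zero] at this
      exact_mod_cast this
    · have hn' : (0 : ℝ) < n := by exact_mod_cast hn
      have h1 := hsub.lim_le_div hbd (n := n) hn.ne'
      rw [le_div_iff₀ hn'] at h1
      have h2 : Real.log ((S3 n).ncard : ℝ) ≤ (n : ℝ) * (-hsub.lim) := by
        have h3 : u n = -Real.log ((S3 n).ncard : ℝ) := rfl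
        rw [h3] at h1
        linarith
      rw [← Real.exp_nat_mul, ← Real.exp_log (hpos' n)]
      exact Real.exp_le_exp.2 h2

end SHQ
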